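import Pool.Agent.Helper81.Ev.PolyD

/-!
# The Liouville function at the values of polynomials with rational roots, every scale, dilated roots

Let `f` be an integer polynomial of degree `k ≥ 2` with `k` distinct rational roots. Dilate the roots of
`f` by `d`, which gives the polynomial `f.scaleRoots d`, whose value at `v` is `F(v, d)`, where `F` is the
homogeneous form with `F(T, 1) = f(T)`. At EVERY scale `X ≥ K D`, `D ≥ K`, the sum of `λ(F(v, d))` over
`|v| ≤ X` stays away from the trivial bound `2 X` by a proportion which depends only on `k`, for almost all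
`d ≤ D` and for almost all primes `d ≤ D` (more generally for almost all `d` with respect to the weight of
any prime tuple). For monic `f` the proportion decreases polynomially with `k`.
-/

set_option autoImplicit false

namespace Pool.Agent.Results.MP_d639b3_nt.DilatedRootsEveryScale

open Finset Filter Topology Polynomial

/-- the Liouville function on the integers; `0` at `0`, as if `0` were omitted -/
noncomputable def liouville (m : ℤ) : ℝ :=
  if m = 0 then 0 else (-1) ^ ArithmeticFunction.cardFactors m.natAbs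

/-- `f` has degree at least two, all its roots are rational and it has no repeated root -/
def RationalRoots (f : ℤ[X]) : Prop :=
  2 ≤ f.natDegree ∧ (f.map (Int.castRingHom ℚ)).Splits ∧ Squarefree (f.map (Int.castRingHom ℚ))

open Classical in
/-- the distance to the trivial bound, for a polynomial of degree `k`: `1 / (2 ^ (k - 1) - 1)`, that is
`1`, `1 / 3`, `1 / 7`, ... for `k = 2, 3, 4, ...`; for monic polynomials of degree `k ≥ 7` the larger
`2 / (2 k ^ 2 - k + 3)` -/
noncomputable def gap (f : ℤ[X]) : ℝ :=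
  if f.Monic then
    max (1 / (2 ^ (f.natDegree - 1) - 1)) (2 / (2 * (f.natDegree : ℝ) ^ 2 - f.natDegree + 3))
  else 1 / (2 ^ (f.natDegree - 1) - 1)

/-- the dilates `1 ≤ d ≤ D` for which the sum of `λ(f.scaleRoots d (v))` over `|v| ≤ X` is above the bound
-/
noncomputable def bad (f : ℤ[X]) (ε : ℝ) (D X : ℕ) : Finset ℕ :=
  (Icc 1 D).filter fun d : ℕ => (1 - gap f + ε) * (2 * X) <
    |∑ v ∈ Icc (-(X : ℤ)) X, liouville ((f.scaleRoots (d : ℤ)).eval v)|

/-- Let `f` be an integer polynomial of degree `k ≥ 2` with distinct rational roots and let `α j T + β j`,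
`j < t`, be linear polynomials with `α j ≠ 0`, no two of them proportional (`t = 0` is allowed and gives
the weight `1`; the polynomial `T` gives the weight `Λ(d)`). For every `ε > 0` there is `K` such that for
ALL `D ≥ K` and ALL `X ≥ K D` the sum of `∏ j, Λ(|α j d + β j|)` over the `d ≤ D` for which
`|∑ λ(f.scaleRoots d (v))| > (1 - gap f + ε) 2 X`, the sum being over `|v| ≤ X`, is at most `ε D`. -/
theorem result (f : ℤ[X]) (hf : RationalRoots f) (t : ℕ) (α β : Fin t → ℤ) (hα : ∀ j, α j ≠ 0)
    (hαβ : ∀ j j', j ≠ j' → α j * β j' ≠ α j' * β j) (ε : ℝ) (hε : 0 < ε) :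
    ∃ K : ℕ, ∀ D X : ℕ, K ≤ D → K * D ≤ X →
      ∑ d ∈ bad f ε D X, ∏ j, ArithmeticFunction.vonMangoldt (α j * d + β j).natAbs ≤ ε * D := by
  classical
  -- a common form
  have key : ∀ θ : ℝ, gap f = θ → (∃ K : ℕ, ∀ D X : ℕ, K ≤ D → K * D ≤ X →
      ∑ d ∈ Icc (1 : ℤ) D, Pool.Agent.Helper81.Ev.wt α β d *
        (if (1 - θ + ε) * (2 * X) < |Pool.Agent.Helper81.Ev.DS f d X| then 1 else 0) ≤ ε * D) →
      ∃ K : ℕ, ∀ D X : ℕ, K ≤ D → K * D ≤ X →
      ∑ d ∈ bad f ε D X, ∏ j, ArithmeticFunction.vonMangoldt (α j * d + β j).natAbs ≤ ε * D := by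
    intro θ hθ hex
    obtain ⟨K, hK⟩ := hex
    refine ⟨K, fun D X hD hX => le_trans (le_of_eq ?_) (hK D X hD hX)⟩
    rw [Pool.Agent.Helper33.Half.sum_cast (fun d => Pool.Agent.Helper81.Ev.wt α β d *
      (if (1 - θ + ε) * (2 * X) < |Pool.Agent.Helper81.Ev.DS f d X| then 1 else 0))]
    unfold bad
    rw [hθ, sum_filter]
    refine sum_congr rfl fun d _ => ?_
    have e : (1 - θ + ε) * (2 * X) < |∑ v ∈ Icc (-(X : ℤ)) X,
        liouville ((f.scaleRoots (d : ℤ)).eval v)| ↔ (1 - θ + ε) * (2 * X) <
        |Pool.Agent.Helper81.Ev.DS f d X| := Iff.rfl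
    by_cases h : (1 - θ + ε) * (2 * X) < |Pool.Agent.Helper81.Ev.DS f d X|
    · rw [if_pos (e.2 h), if_pos h, mul_one]
      rfl
    · rw [if_neg (fun h' => h (e.1 h')), if_neg h, mul_zero]
  have h1 := Pool.Agent.Helper81.Ev.dilates f hf α β hα hαβ hε
  by_cases hm : f.Monic
  · have e : gap f = max (1 / ((2 : ℝ) ^ (f.natDegree - 1) - 1))
        (2 / (2 * (f.natDegree : ℝ) ^ 2 - f.natDegree + 3)) := by
      unfold gap
      rw [if_pos hm]
    rcases max_choice (1 / ((2 : ℝ) ^ (f.natDegree - 1) - 1))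
      (2 / (2 * (f.natDegree : ℝ) ^ 2 - f.natDegree + 3)) with hmax | hmax
    · exact key _ (e.trans hmax) h1
    · exact key _ (e.trans hmax) (Pool.Agent.Helper81.Ev.dilatesM f hf hm α β hα hαβ hε)
  · have e : gap f = 1 / ((2 : ℝ) ^ (f.natDegree - 1) - 1) := by
      unfold gap
      rw [if_neg hm]
    exact key _ e h1

end Pool.Agent.Results.MP_d639b3_nt.DilatedRootsEveryScale
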