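import Pool.Agent.Helper81.SF.Gen
import Pool.Agent.Helper80.OD.Basic

/-!
# Binary forms of degree `2e`, `e` odd, with a similitude: the Liouville sums are not extreme

Let `f` be a binary form and `T` an integral matrix with `f (T P) = C f (P)`, `λ(C) = -1` (the degree of a squarefree `f`
is then odd or `2` modulo `4`). Then `λ(f(T P)) = - λ(f(P))`, so that along each chain `P, T P, T² P, …` the signs
alternate. The number of points of a square (and of a translated lattice mapped by `T` to itself) whose chain in the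
square has an odd number of points is computed by counting the lattice points of parallelograms.

The forms `F (Q₁, Q₂)`, with `F` any form of odd degree and `Q₁, Q₂` any quadratic forms, have such a `T`, with
`C = ρ ^ e`, `ρ` the resultant of `Q₁` and `Q₂`.
-/

set_option autoImplicit false

open Finset

namespace Pool.Agent.Results.MP_d639b3_nt.FormsWithSimilitudes

/-- Liouville's function on the integers: `(-1) ^ Ω(|m|)` for `m ≠ 0`, and `0` for `m = 0` (such points are omitted). -/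
def lam (m : ℤ) : ℤ := if m = 0 then 0 else (-1) ^ ArithmeticFunction.cardFactors m.natAbs

/-- The value `∑ c_j u^j v^(d-j)` at `P = (u, v)` of the binary form of degree `d` with the coefficients `c_0, …, c_d`. -/
def form (d : ℕ) (c : Fin (d + 1) → ℤ) (P : ℤ × ℤ) : ℤ := ∑ j : Fin (d + 1), c j * P.1 ^ (j : ℕ) * P.2 ^ (d - (j : ℕ))

/-- The points `P = (u, v)` with `|u| ≤ X`, `|v| ≤ X`, `u ≡ a`, `v ≡ b` modulo `N`. -/
noncomputable def lattice (N : ℕ) (a b : ℤ) (X : ℕ) : Finset (ℤ × ℤ) :=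
  (Icc (-(X : ℤ)) X ×ˢ Icc (-(X : ℤ)) X).filter (fun P => P.1 ≡ a [ZMOD N] ∧ P.2 ≡ b [ZMOD N])

/-- For all large `X` the sum of `λ(g(P))` over the points `|P| ≤ X` of the translated lattice is at most
`κ + ε` times the number of these points, for every `ε > 0`. -/
def Bound (g : ℤ × ℤ → ℤ) (N : ℕ) (a b : ℤ) (κ : ℝ) : Prop :=
  ∀ ε : ℝ, 0 < ε → ∃ X₀ : ℕ, ∀ X : ℕ, X₀ ≤ X →
    |∑ P ∈ lattice N a b X, (lam (g P) : ℝ)| ≤ (κ + ε) * (lattice N a b X).card

lemma lam_eq : lam = Pool.Agent.Helper80.OD.lam := rfl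

lemma lam_values (n : ℤ) : lam n = 0 ∨ lam n = 1 ∨ lam n = -1 := by
  have := abs_le.1 (Pool.Agent.Helper80.OD.lam_abs_le n)
  rw [lam_eq]
  omega

lemma abs_lam_le (n : ℤ) : |(lam n : ℝ)| ≤ 1 := by
  have := Pool.Agent.Helper80.OD.lam_abs_le n
  rw [lam_eq]
  exact_mod_cast this

lemma lam_odd_pow {n : ℤ} {e : ℕ} (he : Odd e) (h : lam n = -1) : lam (n ^ e) = -1 := by
  rw [lam_eq, Pool.Agent.Helper80.OD.lam_pow, ← lam_eq, h]
  exact he.neg_one_pow

lemma two_le_abs {n : ℤ} (h : lam n = -1) : 2 ≤ |n| := by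
  by_contra h2
  have h3 : n = 0 ∨ n = 1 ∨ n = -1 := by
    rcases abs_cases n with ⟨_, _⟩ | ⟨_, _⟩ <;> omega
  rcases h3 with rfl | rfl | rfl
  · simp [lam] at h
  · simp [lam] at h
  · simp [lam] at h

lemma form_mul (d : ℕ) (c : Fin (d + 1) → ℤ) (n : ℤ) (x y : ℤ) :
    form d c (n * x, n * y) = n ^ d * form d c (x, y) := by
  rw [form, form, mul_sum]
  refine sum_congr rfl fun j _ => ?_
  have hj : (j : ℕ) + (d - (j : ℕ)) = d := by have := j.2; omega
  have h : n ^ d = n ^ (j : ℕ) * n ^ (d - (j : ℕ)) := by rw [← pow_add, hj]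
  rw [h, mul_pow, mul_pow]
  ring

open Pool.Agent.Helper81.SF in
lemma sum_lattice (N : ℕ) (a b : ℤ) (X : ℕ) (g : ℤ × ℤ → ℝ) :
    ∑ P ∈ lattice N a b X, g P = ∑ v ∈ LX N ![a, b] X, g (v 0, v 1) := by
  refine sum_nbij' (fun P => ![P.1, P.2]) (fun v => (v 0, v 1)) ?_ ?_ ?_ ?_ ?_
  · intro P hP
    simp only [lattice, mem_filter, mem_product, mem_Icc] at hP
    rw [mem_LX, mem_sq]
    refine ⟨fun i => ?_, fun i => ?_⟩
    · fin_cases i
      · exact abs_le.2 ⟨hP.1.1.1, hP.1.1.2⟩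
      · exact abs_le.2 ⟨hP.1.2.1, hP.1.2.2⟩
    · fin_cases i
      · exact hP.2.1
      · exact hP.2.2
  · intro v hv
    rw [mem_LX, mem_sq] at hv
    simp only [lattice, mem_filter, mem_product, mem_Icc]
    have h0 := abs_le.1 (hv.1 0)
    have h1 := abs_le.1 (hv.1 1)
    have h2 := hv.2 0
    have h3 := hv.2 1
    exact ⟨⟨⟨h0.1, h0.2⟩, ⟨h1.1, h1.2⟩⟩, h2, h3⟩
  · intro P _
    rfl
  · intro v _
    ext i
    fin_cases i <;> rfl
  · intro P _
    rfl

open Pool.Agent.Helper81.SF in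
lemma card_lattice (N : ℕ) (a b : ℤ) (X : ℕ) : ((lattice N a b X).card : ℝ) = (LX N ![a, b] X).card := by
  have := sum_lattice N a b X (fun _ => 1)
  simpa using this

/-- The matrix with the rows `(p, q)` and `(r, s)`. -/
def mat (p q r s : ℤ) : Matrix (Fin 2) (Fin 2) ℤ := !![p, q; r, s]

lemma mat_mulVec (p q r s : ℤ) (v : Fin 2 → ℤ) :
    (mat p q r s).mulVec v = ![p * v 0 + q * v 1, r * v 0 + s * v 1] := by
  ext i
  fin_cases i <;> simp [mat, Matrix.mulVec, dotProduct, Fin.sum_univ_two]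

lemma mat_det (p q r s : ℤ) : (mat p q r s).det = p * s - q * r := by
  rw [mat, Matrix.det_fin_two_of]

open Pool.Agent.Helper81.SF in
lemma lat_mat {p q r s : ℤ} {N : ℕ} {a b : ℤ} (h1 : p * a + q * b ≡ a [ZMOD N]) (h2 : r * a + s * b ≡ b [ZMOD N])
    (v : Fin 2 → ℤ) (hv : Lat N ![a, b] v) : Lat N ![a, b] ((mat p q r s).mulVec v) := by
  rw [mat_mulVec]
  have h3 : v 0 ≡ a [ZMOD N] := hv 0
  have h4 : v 1 ≡ b [ZMOD N] := hv 1
  intro i
  fin_cases i
  · exact ((h3.mul_left p).add (h4.mul_left q)).trans h1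
  · exact ((h3.mul_left r).add (h4.mul_left s)).trans h2

lemma sign {g : ℤ × ℤ → ℤ} {p q r s C : ℤ}
    (hg : ∀ u v : ℤ, g (p * u + q * v, r * u + s * v) = C * g (u, v)) (hC : lam C = -1) (v : Fin 2 → ℤ) :
    (lam (g (((mat p q r s).mulVec v) 0, ((mat p q r s).mulVec v) 1)) : ℝ) = - (lam (g (v 0, v 1)) : ℝ) := by
  rw [mat_mulVec]
  have : (![p * v 0 + q * v 1, r * v 0 + s * v 1] 0, ![p * v 0 + q * v 1, r * v 0 + s * v 1] 1) =
      (p * v 0 + q * v 1, r * v 0 + s * v 1) := rfl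
  rw [this, hg, lam_eq, Pool.Agent.Helper80.OD.lam_mul, ← lam_eq, hC]
  push_cast
  ring

open Pool.Agent.Helper81.SF in
lemma part1 (g : ℤ × ℤ → ℤ) (p q r s C : ℤ) (N R : ℕ) (a b : ℤ)
    (hg : ∀ u v : ℤ, g (p * u + q * v, r * u + s * v) = C * g (u, v)) (hC : lam C = -1)
    (hd : p * s - q * r ≠ 0) (hN : 1 ≤ N) (h1 : p * a + q * b ≡ a [ZMOD N]) (h2 : r * a + s * b ≡ b [ZMOD N])
    (hR1 : |p| + |q| ≤ R) (hR2 : |r| + |s| ≤ R) :
    Bound g N a b (1 - 2 * (1 - 1 / ((|p * s - q * r| : ℤ) : ℝ)) / (R : ℝ) ^ 2) := by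
  intro ε hε
  have hR : 1 ≤ R := by
    rcases Nat.eq_zero_or_pos R with h | h
    · exfalso
      subst h
      have e1 : |p| + |q| ≤ 0 := by exact_mod_cast hR1
      have hp : p = 0 := abs_eq_zero.1 (by linarith [abs_nonneg p, abs_nonneg q])
      have hq : q = 0 := abs_eq_zero.1 (by linarith [abs_nonneg p, abs_nonneg q])
      rw [hp, hq] at hd
      simp at hd
    · exact h
  have hTR : ∀ (v : Fin 2 → ℤ) (X : ℕ), v ∈ sq X → (mat p q r s).mulVec v ∈ sq (R * X) := by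
    intro v X hv
    rw [mem_sq] at hv ⊢
    rw [mat_mulVec]
    have h0 := hv 0
    have h1 := hv 1
    have hX : (0 : ℤ) ≤ X := by positivity
    have key : ∀ x y : ℤ, |x| + |y| ≤ R → |x * v 0 + y * v 1| ≤ ((R * X : ℕ) : ℤ) := by
      intro x y hxy
      calc |x * v 0 + y * v 1| ≤ |x * v 0| + |y * v 1| := abs_add_le _ _
        _ = |x| * |v 0| + |y| * |v 1| := by rw [abs_mul, abs_mul]
        _ ≤ |x| * X + |y| * X := by gcongr
        _ = (|x| + |y|) * X := by ring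
        _ ≤ R * X := by gcongr
        _ = ((R * X : ℕ) : ℤ) := by push_cast; ring
    intro i
    fin_cases i
    · exact key p q hR1
    · exact key r s hR2
  obtain ⟨X₀, h⟩ := gen (h := fun v => (lam (g (v 0, v 1)) : ℝ)) (T := mat p q r s) (P₀ := ![a, b]) hN
    (by rw [mat_det]; exact hd) (lat_mat h1 h2) (fun v => abs_lam_le _) (sign hg hC) hR hTR ε hε
  refine ⟨X₀, fun X hX => ?_⟩
  rw [sum_lattice, card_lattice, ← mat_det]
  exact h X hX

open Pool.Agent.Helper81.SF in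
lemma part2 (g : ℤ × ℤ → ℤ) (p q r s C : ℤ) (N : ℕ) (a b : ℤ)
    (hg : ∀ u v : ℤ, g (p * u + q * v, r * u + s * v) = C * g (u, v)) (hC : lam C = -1)
    (hd : 2 ≤ |p * s - q * r|) (hN : 1 ≤ N) (h1 : p * a + q * b ≡ a [ZMOD N]) (h2 : r * a + s * b ≡ b [ZMOD N])
    (hexp : ∀ u v : ℤ, max |u| |v| ≤ max |p * u + q * v| |r * u + s * v|) :
    Bound g N a b ((((|p * s - q * r| : ℤ) : ℝ) - 1) / (((|p * s - q * r| : ℤ) : ℝ) + 1)) := by
  intro ε hε
  have hE : Expanding (mat p q r s) := by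
    intro v X hv
    rw [mem_sq] at hv ⊢
    rw [mat_mulVec] at hv
    have h0 : |p * v 0 + q * v 1| ≤ (X : ℤ) := hv 0
    have h1 : |r * v 0 + s * v 1| ≤ (X : ℤ) := hv 1
    have h3 := (hexp (v 0) (v 1)).trans (max_le h0 h1)
    intro i
    fin_cases i
    · exact (le_max_left _ _).trans h3
    · exact (le_max_right _ _).trans h3
  obtain ⟨X₀, h⟩ := main (h := fun v => (lam (g (v 0, v 1)) : ℝ)) (T := mat p q r s) (P₀ := ![a, b]) hN
    hE (by rw [mat_det]; exact hd) (lat_mat h1 h2) (fun v => abs_lam_le _) (sign hg hC) ε hε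
  refine ⟨X₀, fun X hX => ?_⟩
  rw [sum_lattice, card_lattice, ← mat_det, ← B_zero (T := mat p q r s)]
  exact h X hX

/-- Let `|P|` be the max norm.

(1) Let `g` be a binary form (or any function), `T = (p q; r s)` an integral matrix with `det T ≠ 0`, `g(T P) = C g(P)`
for all `P`, `λ(C) = -1`. Let the class `(a, b)` modulo `N` be fixed by `T` and let `R ≥ |p| + |q|, |r| + |s|`. Then the
sum of `λ(g(P))` over the points `|P| ≤ X`, `P ≡ (a, b)` modulo `N` is at most `1 - 2 (1 - 1 / |det T|) / R² + ε`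
times the number of these points, for all large `X`.

(2) If moreover `|T P| ≥ |P|` for all `P` and `m = |det T| ≥ 2`, the factor is `(m - 1) / (m + 1) + ε`.

(3) Let `F` be any binary form of odd degree `e`, and let `Q_i = a_i u² + b_i u v + c_i v²` (`i = 1, 2`) be any
quadratic forms, `A = a₁ b₂ - a₂ b₁`, `B = a₁ c₂ - a₂ c₁`, `C = b₁ c₂ - b₂ c₁`, such that their resultant `ρ = B² - A C`
has `λ(ρ) = -1`. Then (1) holds for the form `f = F (Q₁, Q₂)` of degree `2 e`, with `T = (B C; -A -B)`, `|det T| = |ρ|`,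
so that `f (T P) = ρ ^ e f (P)`.

(4) Let `e` be odd, `λ(M) = -1`, `σ = ±1`, and let `f` be a binary form of degree `2 e` whose coefficients
satisfy `c_{e-k} = σ M^k c_{e+k}` for `0 ≤ k ≤ e`. For every class `(a, b)` modulo `N` with `M b ≡ a`, `a ≡ b` (e.g.
`N = 1`) the sum of `λ(f(P))` as in (1) is at most `(|M| - 1) / (|M| + 1) + ε` times the number of points; this is
`1/3 + ε` for `M = ±2`. -/
theorem result :
    -- (1)
    (∀ (g : ℤ × ℤ → ℤ) (p q r s C : ℤ) (N R : ℕ) (a b : ℤ),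
      (∀ u v : ℤ, g (p * u + q * v, r * u + s * v) = C * g (u, v)) → lam C = -1 → p * s - q * r ≠ 0 →
      1 ≤ N → p * a + q * b ≡ a [ZMOD N] → r * a + s * b ≡ b [ZMOD N] → |p| + |q| ≤ R → |r| + |s| ≤ R →
      Bound g N a b (1 - 2 * (1 - 1 / ((|p * s - q * r| : ℤ) : ℝ)) / (R : ℝ) ^ 2)) ∧
    -- (2)
    (∀ (g : ℤ × ℤ → ℤ) (p q r s C : ℤ) (N : ℕ) (a b : ℤ),
      (∀ u v : ℤ, g (p * u + q * v, r * u + s * v) = C * g (u, v)) → lam C = -1 → 2 ≤ |p * s - q * r| →
      1 ≤ N → p * a + q * b ≡ a [ZMOD N] → r * a + s * b ≡ b [ZMOD N] →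
      (∀ u v : ℤ, max |u| |v| ≤ max |p * u + q * v| |r * u + s * v|) →
      Bound g N a b ((((|p * s - q * r| : ℤ) : ℝ) - 1) / (((|p * s - q * r| : ℤ) : ℝ) + 1))) ∧
    -- (3)
    (∀ (e : ℕ) (F : Fin (e + 1) → ℤ) (a₁ b₁ c₁ a₂ b₂ c₂ A B C : ℤ) (N R : ℕ) (a b : ℤ), Odd e →
      A = a₁ * b₂ - a₂ * b₁ → B = a₁ * c₂ - a₂ * c₁ → C = b₁ * c₂ - b₂ * c₁ → lam (B ^ 2 - A * C) = -1 →
      1 ≤ N → B * a + C * b ≡ a [ZMOD N] → -A * a - B * b ≡ b [ZMOD N] → |B| + |C| ≤ R → |A| + |B| ≤ R →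
      Bound (fun P => form e F (a₁ * P.1 ^ 2 + b₁ * P.1 * P.2 + c₁ * P.2 ^ 2,
          a₂ * P.1 ^ 2 + b₂ * P.1 * P.2 + c₂ * P.2 ^ 2)) N a b
        (1 - 2 * (1 - 1 / ((|B ^ 2 - A * C| : ℤ) : ℝ)) / (R : ℝ) ^ 2)) ∧
    -- (4)
    (∀ (e : ℕ) (c : Fin (2 * e + 1) → ℤ) (M σ : ℤ) (N : ℕ) (a b : ℤ), Odd e → lam M = -1 → (σ = 1 ∨ σ = -1) →
      (∀ (k : ℕ) (hk : k ≤ e), c ⟨e - k, by omega⟩ = σ * M ^ k * c ⟨e + k, by omega⟩) →
      1 ≤ N → M * b ≡ a [ZMOD N] → a ≡ b [ZMOD N] →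
      Bound (form (2 * e) c) N a b ((((|M| : ℤ) : ℝ) - 1) / (((|M| : ℤ) : ℝ) + 1))) := by
  refine ⟨part1, part2, ?_, ?_⟩
  · intro e F a₁ b₁ c₁ a₂ b₂ c₂ A B C N R a b he hA hB hC hlam hN h1 h2 hR1 hR2
    have hdet : B * (-B) - C * (-A) = -(B ^ 2 - A * C) := by ring
    have h3 := two_le_abs hlam
    have h := part1 (fun P => form e F (a₁ * P.1 ^ 2 + b₁ * P.1 * P.2 + c₁ * P.2 ^ 2,
        a₂ * P.1 ^ 2 + b₂ * P.1 * P.2 + c₂ * P.2 ^ 2)) B C (-A) (-B) ((B ^ 2 - A * C) ^ e) N R a b (by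
      intro u v
      rw [← form_mul]
      congr 2
      · subst hA hB hC; ring
      · subst hA hB hC; ring) (lam_odd_pow he hlam) (by
      intro h0
      rw [hdet, neg_eq_zero] at h0
      rw [h0] at h3
      simp at h3) hN h1 (by
      have : -A * a + -B * b = -A * a - B * b := by ring
      rw [this]; exact h2) hR1 (by rw [abs_neg, abs_neg]; exact hR2)
    rw [hdet, abs_neg] at h
    exact h
  · intro e c M σ N a b he hM hσ hc hN h1 h2
    have h3 := two_le_abs hM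
    have hM0 : M ≠ 0 := by rintro rfl; simp at h3
    have hlam : lam (σ * M ^ e) = -1 := by
      rw [lam_eq, Pool.Agent.Helper80.OD.lam_mul, ← lam_eq, lam_odd_pow he hM]
      rcases hσ with rfl | rfl
      · simp [lam]
      · simp [lam]
    have hσ2 : σ * σ = 1 := by rcases hσ with rfl | rfl <;> norm_num
    -- the coefficients
    have hcoef : ∀ j : Fin (2 * e + 1), c j.rev * M ^ (2 * e - (j : ℕ)) = σ * M ^ e * c j := by
      intro j
      have hj := j.2
      rcases le_total (j : ℕ) e with hje | hje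
      · have hk := hc (e - j) (by omega)
        have e1 : (⟨e - (e - j), by omega⟩ : Fin (2 * e + 1)) = j := Fin.ext (by simp only; omega)
        have e2 : (⟨e + (e - j), by omega⟩ : Fin (2 * e + 1)) = j.rev := Fin.ext (by simp only [Fin.val_rev]; omega)
        rw [e1, e2] at hk
        rw [hk]
        have e3 : 2 * e - (j : ℕ) = e + (e - j) := by omega
        rw [e3, pow_add]
        linear_combination (-(c j.rev * M ^ e * M ^ (e - (j : ℕ)))) * hσ2
      · have hk := hc (j - e) (by omega)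
        have e1 : (⟨e - (j - e), by omega⟩ : Fin (2 * e + 1)) = j.rev := Fin.ext (by simp only [Fin.val_rev]; omega)
        have e2 : (⟨e + (j - e), by omega⟩ : Fin (2 * e + 1)) = j := Fin.ext (by simp only; omega)
        rw [e1, e2] at hk
        rw [hk]
        have e3 : e = ((j : ℕ) - e) + (2 * e - (j : ℕ)) := by omega
        have e4 : M ^ e = M ^ ((j : ℕ) - e) * M ^ (2 * e - (j : ℕ)) := by rw [← pow_add, ← e3]
        rw [e4]
        ring
    have hg : ∀ u v : ℤ, form (2 * e) c (0 * u + M * v, 1 * u + 0 * v) = (σ * M ^ e) * form (2 * e) c (u, v) := by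
      intro u v
      simp only [form, mul_sum]
      rw [← Equiv.sum_comp Fin.revPerm]
      refine sum_congr rfl fun j _ => ?_
      simp only [Fin.revPerm_apply, Fin.val_rev]
      have hj := j.2
      have e1 : 2 * e + 1 - ((j : ℕ) + 1) = 2 * e - j := by omega
      have e2 : 2 * e - (2 * e - (j : ℕ)) = j := by omega
      rw [e1, e2, zero_mul, zero_add, one_mul, zero_mul, add_zero, mul_pow]
      linear_combination (u ^ (j : ℕ) * v ^ (2 * e - (j : ℕ))) * hcoef j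
    have hdet : (0 : ℤ) * 0 - M * 1 = -M := by ring
    have h := part2 (form (2 * e) c) 0 M 1 0 (σ * M ^ e) N a b hg hlam (by rw [hdet, abs_neg]; exact h3) hN
      (by rw [zero_mul, zero_add]; exact h1) (by rw [one_mul, zero_mul, add_zero]; exact h2) (by
        intro u v
        rw [zero_mul, zero_add, one_mul, zero_mul, add_zero, abs_mul]
        have : |v| ≤ |M| * |v| := by nlinarith [abs_nonneg v]
        exact max_le (le_max_right _ _) (this.trans (le_max_left _ _)))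
    rw [hdet, abs_neg] at h
    exact h

end Pool.Agent.Results.MP_d639b3_nt.FormsWithSimilitudes
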