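import Pool.Agent.Helper80.OD.Final
import Pool.Agent.Helper80.OD.Count

/-!
# All binary forms of odd degree: the Liouville sums are not extreme, in any translated lattice

Let `f` be any binary form of odd degree with integer coefficients. For the points `P` of a translated lattice of modulus
`N` and every `n ≡ 1` modulo `N` with `λ(n) = -1` the point `n P` belongs to the translated lattice and
`λ(f(n P)) = λ(n) ^ d λ(f(P)) = - λ(f(P))`. So the points of a square are paired off, up to those with an odd number of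
members of the chain `P, n P, n² P, …` in the square; for `N = 1`, `n = 2` these are `3/5` of all points. For the
logarithmic averages all the integers `n` are used: `∑ λ(f(P)) / |P|²` is about `ζ(4) / ζ(2)` times the sum over the
primitive points, which have the density `1 / ζ(2)`, and `ζ(4) / ζ(2)² = 2/5`.
-/

set_option autoImplicit false

open Finset

namespace Pool.Agent.Results.MP_d639b3_nt.OddDegreeForms

/-- Liouville's function on the integers: `(-1) ^ Ω(|m|)` for `m ≠ 0`, and `0` for `m = 0` (such points are omitted). -/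
def lam (m : ℤ) : ℤ := if m = 0 then 0 else (-1) ^ ArithmeticFunction.cardFactors m.natAbs

/-- The value `∑ c_j u^j v^(d-j)` at `P = (u, v)` of the binary form of degree `d` with the coefficients `c_0, …, c_d`. -/
def form (d : ℕ) (c : Fin (d + 1) → ℤ) (P : ℤ × ℤ) : ℤ := ∑ j : Fin (d + 1), c j * P.1 ^ (j : ℕ) * P.2 ^ (d - (j : ℕ))

/-- The points `P = (u, v)` with `|u| ≤ X`, `|v| ≤ X`, `u ≡ a`, `v ≡ b` modulo `N`. -/
noncomputable def lattice (N : ℕ) (a b : ℤ) (X : ℕ) : Finset (ℤ × ℤ) :=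
  (Icc (-(X : ℤ)) X ×ˢ Icc (-(X : ℤ)) X).filter (fun P => P.1 ≡ a [ZMOD N] ∧ P.2 ≡ b [ZMOD N])

/-- The weight `1 / |P|²`, with the max norm `|P|`; the weight of `(0, 0)` is `0`. -/
noncomputable def weight (P : ℤ × ℤ) : ℝ := 1 / ((max P.1.natAbs P.2.natAbs : ℕ) : ℝ) ^ 2

lemma lam_eq : lam = Pool.Agent.Helper80.OD.lam := rfl

lemma form_mul (d : ℕ) (c : Fin (d + 1) → ℤ) (n : ℤ) (P : ℤ × ℤ) :
    form d c (n * P.1, n * P.2) = n ^ d * form d c P := by
  rw [form, form, mul_sum]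
  refine sum_congr rfl fun j _ => ?_
  have hj : (j : ℕ) + (d - (j : ℕ)) = d := by have := j.2; omega
  have h : n ^ d = n ^ (j : ℕ) * n ^ (d - (j : ℕ)) := by rw [← pow_add, hj]
  rw [h, mul_pow, mul_pow]
  ring

lemma lam_form {d : ℕ} (hd : Odd d) (c : Fin (d + 1) → ℤ) (n : ℤ) (P : ℤ × ℤ) :
    lam (form d c (n * P.1, n * P.2)) = lam n * lam (form d c P) := by
  rw [form_mul, lam_eq, Pool.Agent.Helper80.OD.lam_mul, Pool.Agent.Helper80.OD.lam_pow]
  congr 1
  obtain ⟨k, rfl⟩ := hd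
  have h : Pool.Agent.Helper80.OD.lam n = 0 ∨ Pool.Agent.Helper80.OD.lam n = 1 ∨
      Pool.Agent.Helper80.OD.lam n = -1 := by
    have := abs_le.1 (Pool.Agent.Helper80.OD.lam_abs_le n)
    omega
  rcases h with h | h | h
  · rw [h, zero_pow (by omega)]
  · rw [h, one_pow]
  · rw [h]
    exact Odd.neg_one_pow ⟨k, rfl⟩

/-- Let `d` be odd and let `f` be the binary form of degree `d` with the integer coefficients `c_0, …, c_d`.

(1) For every modulus `N ≥ 1`, every class `(a, b)` modulo `N` and every `n ≡ 1` modulo `N` with `λ(n) = -1` the sum of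
`λ(f(P))` over the points `|P| ≤ X` of the translated lattice is at most `(n² - 1) / (n² + 1)` times the number of these
points, up to `C (X + 1)`. For `N = 1` one can take `n = 2`, with the factor `3/5`.

(2) For every `N ≥ 1` there is such an `n`.

(3) For every `ε > 0` and all large `X`, `|∑ λ(f(P)) / |P|²| ≤ (2/5 + ε) ∑ 1 / |P|²`, the sums over `0 < |P| ≤ X`. -/
theorem result (d : ℕ) (hd : Odd d) (c : Fin (d + 1) → ℤ) :
    -- (1)
    (∀ (N n : ℕ) (a b : ℤ), 1 ≤ N → (n : ℤ) ≡ 1 [ZMOD N] → lam n = -1 → ∃ C : ℝ, ∀ X : ℕ,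
      |∑ P ∈ lattice N a b X, (lam (form d c P) : ℝ)| ≤
        ((n : ℝ) ^ 2 - 1) / ((n : ℝ) ^ 2 + 1) * (lattice N a b X).card + C * (X + 1)) ∧
    -- (2)
    (lam 2 = -1 ∧ ∀ N : ℕ, 1 ≤ N → ∃ n : ℕ, (n : ℤ) ≡ 1 [ZMOD N] ∧ lam n = -1) ∧
    -- (3)
    (∀ ε : ℝ, 0 < ε → ∃ X₀ : ℕ, ∀ X : ℕ, X₀ ≤ X →
      |∑ P ∈ lattice 1 0 0 X, lam (form d c P) * weight P| ≤ (2 / 5 + ε) * ∑ P ∈ lattice 1 0 0 X, weight P) := by
  have hg1 : ∀ P, |(lam (form d c P) : ℝ)| ≤ 1 := fun P => Pool.Agent.Helper80.OD.abs_lam_le _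
  refine ⟨fun N n a b hN hnN hn => ⟨412, fun X => ?_⟩, ⟨?_, fun N hN => ?_⟩, fun ε hε => ?_⟩
  · have hn2 : 2 ≤ n := by
      rcases Nat.lt_or_ge n 2 with h | h
      · exfalso
        interval_cases n
        · simp [lam] at hn
        · simp [lam] at hn
      · exact h
    have h := Pool.Agent.Helper80.OD.main hn2 hN hnN a b (fun P => (lam (form d c P) : ℝ)) (fun P => by
      show ((lam (form d c ((n : ℤ) * P.1, (n : ℤ) * P.2)) : ℤ) : ℝ) = _
      rw [lam_form hd, hn]; push_cast; ring) hg1 X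
    have h2 := (abs_le.1 (Pool.Agent.Helper80.OD.pts_card hN a b X)).1
    have hk0 : 0 ≤ ((n : ℝ) ^ 2 - 1) / ((n : ℝ) ^ 2 + 1) := by
      have : (2 : ℝ) ≤ n := by exact_mod_cast hn2
      apply div_nonneg <;> nlinarith
    have hk1 : ((n : ℝ) ^ 2 - 1) / ((n : ℝ) ^ 2 + 1) ≤ 1 := by
      rw [div_le_one (by positivity)]; linarith
    have hX : (0 : ℝ) ≤ X := Nat.cast_nonneg X
    have h3 : ((n : ℝ) ^ 2 - 1) / ((n : ℝ) ^ 2 + 1) * (4 * (X : ℝ) ^ 2 / (N : ℝ) ^ 2) ≤
        ((n : ℝ) ^ 2 - 1) / ((n : ℝ) ^ 2 + 1) * ((Pool.Agent.Helper80.OD.pts N a b X).card + 12 * ((X : ℝ) + 1)) :=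
      mul_le_mul_of_nonneg_left (by linarith) hk0
    have h4 : ((n : ℝ) ^ 2 - 1) / ((n : ℝ) ^ 2 + 1) * (12 * ((X : ℝ) + 1)) ≤ 12 * ((X : ℝ) + 1) :=
      mul_le_of_le_one_left (by positivity) hk1
    rw [mul_add] at h3
    show |∑ P ∈ Pool.Agent.Helper80.OD.pts N a b X, (lam (form d c P) : ℝ)| ≤
        ((n : ℝ) ^ 2 - 1) / ((n : ℝ) ^ 2 + 1) * (Pool.Agent.Helper80.OD.pts N a b X).card + 412 * (X + 1)
    linarith
  · exact Pool.Agent.Helper80.OD.lam_prime Nat.prime_two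
  · obtain ⟨p, hp, -, h⟩ := Nat.exists_prime_gt_modEq_one (k := N) 1 (by omega)
    exact ⟨p, by exact_mod_cast (Int.natCast_modEq_iff.2 h), Pool.Agent.Helper80.OD.lam_prime hp⟩
  · obtain ⟨X₀, h⟩ := Pool.Agent.Helper80.OD.log_main (fun P => (lam (form d c P) : ℝ)) (fun n _ P => by
      show ((lam (form d c ((n : ℤ) * P.1, (n : ℤ) * P.2)) : ℤ) : ℝ) = _
      rw [lam_form hd]; push_cast; rfl) hg1 ε hε
    refine ⟨X₀, fun X hX => ?_⟩
    have e : lattice 1 0 0 X = Pool.Agent.Helper80.OD.sq X := by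
      ext P
      simp only [lattice, Pool.Agent.Helper80.OD.sq, mem_filter, Nat.cast_one, Int.modEq_one, and_self, and_true]
    rw [e]
    exact h X hX

end Pool.Agent.Results.MP_d639b3_nt.OddDegreeForms
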