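import Pool.Agent.Helper81.Ev.PolyC

/-!
# The Liouville function at the values of polynomials with rational roots: an explicit gap

Let `f` be an integer polynomial of degree `k ≥ 2` with `k` distinct rational roots. At almost all scales
`X`, and for all logarithmic averages, the sums of `λ(f(v))` over the `v` with `|v| ≤ X` in any arithmetic
progression are at most `1 - 1 / (2 ^ (k - 1) - 1) + ε` times the trivial bound. The gap depends only on
the degree; one exceptional set of scales, of logarithmic density zero, serves all polynomials, all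
progressions and all `ε`.
-/

set_option autoImplicit false

namespace Pool.Agent.Results.MP_d639b3_nt.SplitPolynomialsExplicitGap

open Finset Filter Topology Polynomial

/-- the Liouville function on the integers; `0` at `0`, as if `0` were omitted -/
noncomputable def liouville (m : ℤ) : ℝ :=
  if m = 0 then 0 else (-1) ^ ArithmeticFunction.cardFactors m.natAbs

/-- the integers `v` with `|v| ≤ X` and `v ≡ r` modulo `q` -/
noncomputable def prog (q : ℕ) (r : ℤ) (X : ℕ) : Finset ℤ := (Icc (-(X : ℤ)) X).filter fun v => v ≡ r [ZMOD q]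

/-- `f` has degree at least two, all its roots are rational and it has no repeated root -/
def RationalRoots (f : ℤ[X]) : Prop :=
  2 ≤ f.natDegree ∧ (f.map (Int.castRingHom ℚ)).Splits ∧ Squarefree (f.map (Int.castRingHom ℚ))

/-- the gap for degree `k`: `1`, `1 / 3`, `1 / 7`, `1 / 15`, ... for `k = 2, 3, 4, 5, ...` -/
noncomputable def gap (k : ℕ) : ℝ := 1 / (2 ^ (k - 1) - 1)

open Classical in
/-- a set of scales of logarithmic density zero -/
def LogDensityZero (E : Set ℕ) : Prop :=
  Tendsto (fun X : ℕ => (∑ n ∈ Icc 1 X, if n ∈ E then (1 : ℝ) / n else 0) / Real.log X) atTop (𝓝 0)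

/-- There is a set `E` of logarithmic density zero such that for all integer polynomials `f` of degree
`k ≥ 2` with distinct rational roots, all progressions `r` mod `q` and all `ε > 0`:
`|∑ λ(f(v))| ≤ (1 - gap k + ε) #{v}` for all large `X` outside `E`, the sum being over the `v` in the
progression with `|v| ≤ X`; and `|∑ λ(f(v)) / |v|| ≤ (1 - gap k + ε) (2 log X) / q` for all large `X` (the
term `v = 0` is `0`). -/
theorem result :
    ∃ E : Set ℕ, LogDensityZero E ∧ ∀ f : ℤ[X], RationalRoots f → ∀ q : ℕ, 1 ≤ q → ∀ (r : ℤ) (ε : ℝ),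
      0 < ε →
      (∃ X₀ : ℕ, ∀ X : ℕ, X₀ ≤ X → X ∉ E → |∑ v ∈ prog q r X, liouville (f.eval v)| ≤
        (1 - gap f.natDegree + ε) * (prog q r X).card) ∧
      ∃ X₀ : ℕ, ∀ X : ℕ, X₀ ≤ X → |∑ v ∈ prog q r X, liouville (f.eval v) / (|(v : ℝ)|)| ≤
        (1 - gap f.natDegree + ε) * (2 * Real.log X / q) := by
  classical
  exact Pool.Agent.Helper81.Ev.split_all

end Pool.Agent.Results.MP_d639b3_nt.SplitPolynomialsExplicitGap
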